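import Mathlib

set_option autoImplicit false

namespace Pool.Agent.Results.MP_e8eed4_co.MajorityThree

open scoped ENNReal

/-- `D_φ(v)`: total weight of the bichromatic edges at `v`. -/
noncomputable def diffWeight {V : Type*} {K : Type*} (G : SimpleGraph V) (w : Sym2 V → ℕ)
    (φ : V → K) (v : V) : ℝ≥0∞ :=
  ∑' u : {u : V // G.Adj v u ∧ φ u ≠ φ v}, (w s(v, u.1) : ℝ≥0∞)

/-- `S_φ(v)`: total weight of the monochromatic edges at `v`. -/
noncomputable def sameWeight {V : Type*} {K : Type*} (G : SimpleGraph V) (w : Sym2 V → ℕ)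
    (φ : V → K) (v : V) : ℝ≥0∞ :=
  ∑' u : {u : V // G.Adj v u ∧ φ u = φ v}, (w s(v, u.1) : ℝ≥0∞)

/-- A majority colouring. -/
def IsMajority {V : Type*} {K : Type*} (G : SimpleGraph V) (w : Sym2 V → ℕ) (φ : V → K) : Prop :=
  ∀ v, sameWeight G w φ v ≤ diffWeight G w φ v

/-- the positive-weight neighbourhood -/
def nb {V : Type*} (G : SimpleGraph V) (w : Sym2 V → ℕ) (v : V) : Set V :=
  {u | G.Adj v u ∧ w s(v, u) ≠ 0}

lemma mem_nb_comm {V : Type*} {G : SimpleGraph V} {w : Sym2 V → ℕ} {u v : V}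
    (h : u ∈ nb G w v) : v ∈ nb G w u := by
  refine ⟨h.1.symm, ?_⟩
  rw [Sym2.eq_swap]
  exact h.2

lemma not_mem_nb_self {V : Type*} {G : SimpleGraph V} {w : Sym2 V → ℕ} {v : V} :
    v ∉ nb G w v := fun h => G.loopless.irrefl v h.1

lemma ok_of_infinite {V K : Type*} (G : SimpleGraph V) (w : Sym2 V → ℕ) (φ : V → K) (v : V)
    (h : (nb G w v ∩ {u | φ u ≠ φ v}).Infinite) :
    sameWeight G w φ v ≤ diffWeight G w φ v := by
  have : diffWeight G w φ v = ⊤ := by
    unfold diffWeight
    have hinf : Infinite {u : V // u ∈ nb G w v ∩ {u | φ u ≠ φ v}} := h.to_subtype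
    let g : {u : V // u ∈ nb G w v ∩ {u | φ u ≠ φ v}} → {u : V // G.Adj v u ∧ φ u ≠ φ v} :=
      fun u => ⟨u.1, u.2.1.1, u.2.2⟩
    have hg : Function.Injective g := by
      intro a b hab
      have := congrArg Subtype.val hab
      exact Subtype.ext this
    have h1 : (∑' u : {u : V // u ∈ nb G w v ∩ {u | φ u ≠ φ v}}, (1 : ℝ≥0∞)) = ⊤ :=
      ENNReal.tsum_const_eq_top_of_ne_zero one_ne_zero
    refine top_le_iff.mp ?_
    rw [← h1]
    refine le_trans ?_ (ENNReal.tsum_comp_le_tsum_of_injective hg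
      (fun u : {u : V // G.Adj v u ∧ φ u ≠ φ v} => (w s(v, u.1) : ℝ≥0∞)))
    refine ENNReal.tsum_le_tsum ?_
    intro u
    have := u.2.1.2
    have h2 : 1 ≤ w s(v, u.1) := Nat.one_le_iff_ne_zero.mpr this
    have h3 : ((1 : ℕ) : ℝ≥0∞) ≤ (w s(v, u.1) : ℝ≥0∞) := Nat.cast_le.mpr h2
    simpa using h3
  rw [this]; exact le_top

lemma tsum_eq_fin {V : Type*} (G : SimpleGraph V) (w : Sym2 V → ℕ) (v : V) (P : V → Prop)
    [DecidablePred P]
    (N : Finset V) (hN : ∀ u, u ∈ N ↔ u ∈ nb G w v) :
    (∑' u : {u : V // G.Adj v u ∧ P u}, (w s(v, u.1) : ℝ≥0∞)) =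
      ((∑ u ∈ N, if P u then w s(v, u) else 0 : ℕ) : ℝ≥0∞) := by
  classical
  have h1 := tsum_subtype (s := {u : V | G.Adj v u ∧ P u}) (f := fun u => (w s(v, u) : ℝ≥0∞))
  have h2 : (∑' u : {u : V // G.Adj v u ∧ P u}, (w s(v, u.1) : ℝ≥0∞)) =
    ∑' u, Set.indicator {u : V | G.Adj v u ∧ P u} (fun u => (w s(v, u) : ℝ≥0∞)) u := h1
  rw [h2, tsum_eq_sum (s := N)]
  · push_cast
    refine Finset.sum_congr rfl ?_
    intro u hu
    have hu' := (hN u).1 hu
    by_cases hP : P u
    · rw [Set.indicator_of_mem (show u ∈ {u : V | G.Adj v u ∧ P u} from ⟨hu'.1, hP⟩)]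
      simp [hP]
    · rw [Set.indicator_of_notMem (show u ∉ {u : V | G.Adj v u ∧ P u} from fun h => hP h.2)]
      simp [hP]
  · intro u hu
    by_cases hm : u ∈ {u : V | G.Adj v u ∧ P u}
    · rw [Set.indicator_of_mem hm]
      have : w s(v, u) = 0 := by
        by_contra hne
        exact hu ((hN u).2 ⟨hm.1, hne⟩)
      simp [this]
    · rw [Set.indicator_of_notMem hm]

/-- Finite max cut relative to a boundary condition. -/
lemma finite_cut {V : Type*} [DecidableEq V] (G : SimpleGraph V) (w : Sym2 V → ℕ)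
    (N : V → Finset V) (t : Finset V) (hN : ∀ v ∈ t, ∀ u, u ∈ N v ↔ u ∈ nb G w v)
    (φ0 : V → Fin 3) :
    ∃ φ : V → Fin 3, (∀ v, v ∉ t → φ v = φ0 v) ∧ (∀ v ∈ t, φ v ≠ 0) ∧
      ∀ v ∈ t, (∑ u ∈ N v, if φ u = φ v then w s(v, u) else 0) ≤
        ∑ u ∈ N v, if φ u ≠ φ v then w s(v, u) else 0 := by
  classical
  let E : Finset (Sym2 V) := t.biUnion (fun v => (N v).image (fun u => s(v, u)))
  let M : (V → Fin 3) → ℕ := fun φ => ∑ e ∈ E, if (e.map φ).IsDiag then w e else 0
  let good : (V → Fin 3) → Prop := fun φ => (∀ v, v ∉ t → φ v = φ0 v) ∧ (∀ v ∈ t, φ v ≠ 0)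
  have hne : ∃ n, ∃ φ, good φ ∧ M φ = n := by
    refine ⟨_, fun v => if v ∈ t then 1 else φ0 v, ⟨?_, ?_⟩, rfl⟩
    · intro v hv; simp [hv]
    · intro v hv; simp [hv]
  obtain ⟨φ, hφ, hM⟩ := Nat.find_spec hne
  have hmin : ∀ ψ, good ψ → M φ ≤ M ψ := by
    intro ψ hψ
    rw [hM]
    exact Nat.find_min' hne ⟨ψ, hψ, rfl⟩
  refine ⟨φ, hφ.1, hφ.2, ?_⟩
  intro v hv
  -- the other colour
  have hc : ∃ c : Fin 3, c ≠ 0 ∧ c ≠ φ v := by
    have : ∀ d : Fin 3, ∃ c : Fin 3, c ≠ 0 ∧ c ≠ d := by decide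
    exact this _
  obtain ⟨c, hc0, hcv⟩ := hc
  let ψ : V → Fin 3 := Function.update φ v c
  have hψ : good ψ := by
    refine ⟨?_, ?_⟩
    · intro u hu
      have : u ≠ v := by rintro rfl; exact hu hv
      simp only [ψ, Function.update_of_ne this]
      exact hφ.1 u hu
    · intro u hu
      by_cases huv : u = v
      · subst huv; simp only [ψ, Function.update_self]; exact hc0
      · simp only [ψ, Function.update_of_ne huv]; exact hφ.2 u hu
  have hle := hmin ψ hψ
  -- split the sums
  have hsplit : ∀ χ : V → Fin 3, M χ = (∑ e ∈ E with v ∈ e, if (e.map χ).IsDiag then w e else 0)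
      + ∑ e ∈ E with ¬ v ∈ e, if (e.map χ).IsDiag then w e else 0 := by
    intro χ
    exact (Finset.sum_filter_add_sum_filter_not E (fun e => v ∈ e) _).symm
  have hsame : (∑ e ∈ E with ¬ v ∈ e, if (e.map ψ).IsDiag then w e else 0) =
      ∑ e ∈ E with ¬ v ∈ e, if (e.map φ).IsDiag then w e else 0 := by
    refine Finset.sum_congr rfl ?_
    intro e he
    have hve : v ∉ e := (Finset.mem_filter.mp he).2
    have : e.map ψ = e.map φ := by
      refine Sym2.map_congr ?_
      intro x hx
      have : x ≠ v := by rintro rfl; exact hve hx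
      simp only [ψ, Function.update_of_ne this]
    rw [this]
  have hloc : ∀ χ : V → Fin 3, (∑ e ∈ E with v ∈ e, if (e.map χ).IsDiag then w e else 0) =
      ∑ u ∈ N v, if χ v = χ u then w s(v, u) else 0 := by
    intro χ
    have hE : E.filter (fun e => v ∈ e) = (N v).image (fun u => s(v, u)) := by
      ext e
      simp only [E, Finset.mem_filter, Finset.mem_biUnion, Finset.mem_image]
      constructor
      · rintro ⟨⟨a, ha, u, hu, rfl⟩, hve⟩
        rcases Sym2.mem_iff.mp hve with rfl | rfl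
        · exact ⟨u, hu, rfl⟩
        · refine ⟨a, ?_, Sym2.eq_swap⟩
          rw [hN v hv]
          rw [hN a ha] at hu
          exact mem_nb_comm hu
      · rintro ⟨u, hu, rfl⟩
        exact ⟨⟨v, hv, u, hu, rfl⟩, Sym2.mem_mk_left v u⟩
    rw [hE, Finset.sum_image]
    · refine Finset.sum_congr rfl ?_
      intro u _
      simp [Sym2.map_mk]
    · intro a _ b _ hab
      exact Sym2.congr_right.mp hab
  rw [hsplit φ, hsplit ψ, hsame, hloc φ, hloc ψ] at hle
  have hle2 := Nat.le_of_add_le_add_right hle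
  calc (∑ u ∈ N v, if φ u = φ v then w s(v, u) else 0)
      = ∑ u ∈ N v, if φ v = φ u then w s(v, u) else 0 := by
        refine Finset.sum_congr rfl ?_
        intro u _
        simp only [eq_comm]
    _ ≤ ∑ u ∈ N v, if ψ v = ψ u then w s(v, u) else 0 := hle2
    _ ≤ ∑ u ∈ N v, if φ u ≠ φ v then w s(v, u) else 0 := by
        refine Finset.sum_le_sum ?_
        intro u hu
        have huv : u ≠ v := by
          rintro rfl
          exact not_mem_nb_self ((hN u hv u).1 hu)
        simp only [ψ, Function.update_self, Function.update_of_ne huv]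
        by_cases h : c = φ u
        · have : φ u ≠ φ v := by rw [← h]; exact hcv
          rw [if_pos h, if_pos this]
        · simp [h]

/-- A system of infinite sets indexed by a countable type has distinct representatives. -/
lemma exists_sdr {J V : Type*} [Countable J] (A : J → Set V) (hA : ∀ j, (A j).Infinite) :
    ∃ x : J → V, Function.Injective x ∧ ∀ j, x j ∈ A j := by
  classical
  obtain ⟨e, he⟩ := exists_injective_nat J
  have hB : ∀ j, ∃ B : Finset V, (B : Set V) ⊆ A j ∧ B.card = e j + 1 :=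
    fun j => (hA j).exists_subset_card_eq (e j + 1)
  choose B hBA hBc using hB
  have hall : ∀ s : Finset J, s.card ≤ (s.biUnion B).card := by
    intro s
    rcases s.eq_empty_or_nonempty with rfl | hs
    · simp
    · obtain ⟨j, hj, hmax⟩ := Finset.exists_max_image s e hs
      have h1 : s.card ≤ e j + 1 := by
        have : (s.image e) ⊆ Finset.range (e j + 1) := by
          intro n hn
          obtain ⟨i, hi, rfl⟩ := Finset.mem_image.mp hn
          exact Finset.mem_range.mpr (Nat.lt_succ_of_le (hmax i hi))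
        calc s.card = (s.image e).card := (Finset.card_image_of_injective s he).symm
          _ ≤ (Finset.range (e j + 1)).card := Finset.card_le_card this
          _ = e j + 1 := Finset.card_range _
      calc s.card ≤ e j + 1 := h1
        _ = (B j).card := (hBc j).symm
        _ ≤ _ := Finset.card_le_card (Finset.subset_biUnion_of_mem B hj)
  obtain ⟨f, hf, hfm⟩ := (Finset.all_card_le_biUnion_card_iff_exists_injective B).mp hall
  exact ⟨f, hf, fun j => hBA j (hfm j)⟩

/-- Splitting countably many infinite sets simultaneously. -/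
lemma exists_split {I V : Type*} [Countable I] (A : I → Set V) (hA : ∀ i, (A i).Infinite) :
    ∃ f : V → Bool, ∀ i, ∀ b : Bool, (A i ∩ {u | f u = b}).Infinite := by
  classical
  obtain ⟨x, hx, hxA⟩ := exists_sdr (J := I × Bool × ℕ) (fun j => A j.1) (fun j => hA j.1)
  refine ⟨fun v => decide (∃ j, x j = v ∧ j.2.1 = true), ?_⟩
  intro i b
  have hinj : Function.Injective (fun k : ℕ => x (i, b, k)) := by
    intro k l h
    have := hx h
    simpa using this
  refine (Set.infinite_range_of_injective hinj).mono ?_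
  rintro _ ⟨k, rfl⟩
  refine ⟨hxA (i, b, k), ?_⟩
  cases b
  · simp only [Set.mem_ofPred_eq, decide_eq_false_iff_not]
    rintro ⟨j, hj, hj2⟩
    have := hx hj
    rw [this] at hj2
    simp at hj2
  · simp only [Set.mem_ofPred_eq, decide_eq_true_eq]
    exact ⟨_, rfl, rfl⟩

/-- Peeling: a maximal partial colouring of the vertices of a graph. -/
lemma exists_peel {V : Type*} (nbr : V → Set V) (K I : Set V) :
    ∃ f : V → Option (Fin 3),
      (∀ v, v ∈ K → f v = some 0) ∧ (∀ v, v ∉ K → f v ≠ none → v ∈ I) ∧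
      (∀ v c, v ∉ K → f v = some c → (nbr v ∩ {u | ∃ d, f u = some d ∧ d ≠ c}).Infinite) ∧
      (∀ v ∈ I, f v = none → (nbr v ∩ {u | f u ≠ none}).Finite) := by
  classical
  let P : Set (V → Option (Fin 3)) := {f | (∀ v, v ∈ K → f v = some 0) ∧
    (∀ v, v ∉ K → f v ≠ none → v ∈ I) ∧
      (∀ v c, v ∉ K → f v = some c → (nbr v ∩ {u | ∃ d, f u = some d ∧ d ≠ c}).Infinite)}
  let r : {f // f ∈ P} → {f // f ∈ P} → Prop := fun f g => ∀ v c, f.1 v = some c → g.1 v = some c
  have hbase : (fun v => if v ∈ K then some (0 : Fin 3) else none) ∈ P := by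
    refine ⟨?_, ?_, ?_⟩
    · intro v hv; simp [hv]
    · intro v hv h; simp [hv] at h
    · intro v c hv h; simp [hv] at h
  have hchain : ∀ c : Set {f // f ∈ P}, IsChain r c → ∃ ub, ∀ a ∈ c, r a ub := by
    intro c hc
    rcases c.eq_empty_or_nonempty with rfl | ⟨f0, hf0⟩
    · exact ⟨⟨_, hbase⟩, by simp⟩
    · let g : V → Option (Fin 3) := fun v =>
        if h : ∃ f ∈ c, (f : {f // f ∈ P}).1 v ≠ none then h.choose.1 v else none
      have hgf : ∀ f ∈ c, ∀ v d, f.1 v = some d → g v = some d := by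
        intro f hf v d hd
        have h : ∃ f ∈ c, (f : {f // f ∈ P}).1 v ≠ none := ⟨f, hf, by rw [hd]; simp⟩
        have h1 := h.choose_spec
        have h2 : g v = h.choose.1 v := by simp only [g]; rw [dif_pos h]
        rw [h2]
        obtain ⟨e, he⟩ := Option.ne_none_iff_exists'.mp h1.2
        by_cases hfe : f = h.choose
        · rw [← hfe]; exact hd
        · rcases hc hf h1.1 hfe with h3 | h3
          · exact h3 v d hd
          · have := h3 v e he
            rw [he]
            rw [hd] at this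
            exact this.symm
      have hfg : ∀ v d, g v = some d → ∃ f ∈ c, (f : {f // f ∈ P}).1 v = some d := by
        intro v d hd
        by_cases h : ∃ f ∈ c, (f : {f // f ∈ P}).1 v ≠ none
        · have h1 := h.choose_spec
          have h2 : g v = h.choose.1 v := by simp only [g]; rw [dif_pos h]
          exact ⟨h.choose, h1.1, by rw [← h2]; exact hd⟩
        · have h2 : g v = none := by simp only [g]; rw [dif_neg h]
          rw [h2] at hd
          exact absurd hd (by simp)
      have hgP : g ∈ P := by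
        refine ⟨?_, ?_, ?_⟩
        · intro v hv
          exact hgf f0 hf0 v 0 (f0.2.1 v hv)
        · intro v hv h
          obtain ⟨d, hd⟩ := Option.ne_none_iff_exists'.mp h
          obtain ⟨f, hf, hfd⟩ := hfg v d hd
          exact f.2.2.1 v hv (by rw [hfd]; simp)
        · intro v d hv hd
          obtain ⟨f, hf, hfd⟩ := hfg v d hd
          refine (f.2.2.2 v d hv hfd).mono ?_
          rintro u ⟨hu1, e, he, hne⟩
          exact ⟨hu1, e, hgf f hf u e he, hne⟩
      exact ⟨⟨g, hgP⟩, fun f hf => hgf f hf⟩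
  obtain ⟨m, hm⟩ := exists_maximal_of_chains_bounded hchain
    (fun {a b c} hab hbc v d hd => hbc v d (hab v d hd))
  refine ⟨m.1, m.2.1, m.2.2.1, m.2.2.2, ?_⟩
  intro v hvI hvn
  by_contra hinf
  have hinf' : (nbr v ∩ {u | m.1 u ≠ none}).Infinite := hinf
  -- a colour class meeting the neighbourhood in an infinite set
  have hcl : ∃ a : Fin 3, (nbr v ∩ {u | m.1 u = some a}).Infinite := by
    by_contra hno
    have hno : ∀ a : Fin 3, ¬ (nbr v ∩ {u | m.1 u = some a}).Infinite := not_exists.mp hno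
    apply hinf
    have : nbr v ∩ {u | m.1 u ≠ none} ⊆ ⋃ a : Fin 3, (nbr v ∩ {u | m.1 u = some a}) := by
      rintro u ⟨hu1, hu2⟩
      obtain ⟨d, hd⟩ := Option.ne_none_iff_exists'.mp hu2
      exact Set.mem_iUnion.mpr ⟨d, hu1, hd⟩
    exact (Set.finite_iUnion (fun a => Set.not_infinite.mp (hno a))).subset this
  obtain ⟨a, ha⟩ := hcl
  obtain ⟨b, hb⟩ : ∃ b : Fin 3, a ≠ b := by
    have : ∀ a : Fin 3, ∃ b : Fin 3, a ≠ b := by decide
    exact this a
  have hvK : v ∉ K := by
    intro hvK
    rw [m.2.1 v hvK] at hvn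
    exact absurd hvn (by simp)
  let g : V → Option (Fin 3) := Function.update m.1 v (some b)
  have hgm : ∀ u d, m.1 u = some d → g u = some d := by
    intro u d hd
    have : u ≠ v := by
      rintro rfl
      rw [hvn] at hd
      exact absurd hd (by simp)
    simp only [g, Function.update_of_ne this]
    exact hd
  have hgP : g ∈ P := by
    refine ⟨?_, ?_, ?_⟩
    · intro u hu
      exact hgm u 0 (m.2.1 u hu)
    · intro u hu h
      by_cases huv : u = v
      · rw [huv]; exact hvI
      · simp only [g, Function.update_of_ne huv] at h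
        exact m.2.2.1 u hu h
    · intro u d hu hd
      by_cases huv : u = v
      · subst huv
        simp only [g, Function.update_self, Option.some.injEq] at hd
        subst hd
        refine ha.mono ?_
        rintro x ⟨hx1, hx2⟩
        exact ⟨hx1, a, hgm x a hx2, hb⟩
      · simp only [g, Function.update_of_ne huv] at hd
        refine (m.2.2.2 u d hu hd).mono ?_
        rintro x ⟨hx1, e, he, hne⟩
        exact ⟨hx1, e, hgm x e he, hne⟩
  have := hm ⟨g, hgP⟩ hgm v b (by simp [g])
  rw [hvn] at this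
  exact absurd this (by simp)

/-- Every countable multigraph is majority 3-colourable. -/
theorem result {V : Type*} [Countable V] (G : SimpleGraph V) (w : Sym2 V → ℕ) :
    ∃ φ : V → Fin 3, IsMajority G w φ := by
  classical
  let F : Set V := {v | (nb G w v).Finite}
  let K : Set V := {v | v ∉ F ∧ (nb G w v ∩ F).Infinite}
  obtain ⟨f, hfK, hfI, hfC, hfS⟩ := exists_peel (nb G w) K Fᶜ
  -- the remaining vertices
  let S : Set V := {v | v ∉ F ∧ f v = none}
  have hSinf : ∀ v : S, (nb G w v.1 ∩ S).Infinite := by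
    rintro ⟨v, hvF, hvn⟩
    have h1 := hfS v hvF hvn
    have hvK : v ∉ K := by
      intro h
      rw [hfK v h] at hvn
      exact absurd hvn (by simp)
    have h2 : (nb G w v ∩ F).Finite := by
      by_contra h
      exact hvK ⟨hvF, h⟩
    have h3 : (nb G w v).Infinite := hvF
    intro h4
    apply h3
    refine ((h1.union h2).union h4).subset ?_
    intro u hu
    by_cases huF : u ∈ F
    · exact Or.inl (Or.inr ⟨hu, huF⟩)
    · by_cases hun : f u = none
      · exact Or.inr ⟨hu, huF, hun⟩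
      · exact Or.inl (Or.inl ⟨hu, hun⟩)
  obtain ⟨s, hs⟩ := exists_split (fun v : S => nb G w v.1 ∩ S) hSinf
  -- the base colouring
  let φ0 : V → Fin 3 := fun v => (f v).getD (if s v then 1 else 2)
  let N : V → Finset V := fun v => if h : (nb G w v).Finite then h.toFinset else ∅
  have hN : ∀ v ∈ F, ∀ u, u ∈ N v ↔ u ∈ nb G w v := by
    intro v hv u
    have hv' : (nb G w v).Finite := hv
    simp only [N, dif_pos hv', Set.Finite.mem_toFinset]
  have hcut : ∀ t : Finset V, ∃ φ : V → Fin 3, (∀ v, v ∉ F → φ v = φ0 v) ∧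
      (∀ v ∈ t, v ∈ F → φ v ≠ 0) ∧
      ∀ v ∈ t, v ∈ F → (∑ u ∈ N v, if φ u = φ v then w s(v, u) else 0) ≤
        ∑ u ∈ N v, if φ u ≠ φ v then w s(v, u) else 0 := by
    intro t
    obtain ⟨φ, h1, h2, h3⟩ := finite_cut G w N (t.filter (fun v => v ∈ F))
      (fun v hv => hN v (Finset.mem_filter.mp hv).2) φ0
    refine ⟨φ, ?_, ?_, ?_⟩
    · intro v hv
      exact h1 v (fun h => hv (Finset.mem_filter.mp h).2)
    · intro v hv hvF
      exact h2 v (Finset.mem_filter.mpr ⟨hv, hvF⟩)
    · intro v hv hvF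
      exact h3 v (Finset.mem_filter.mpr ⟨hv, hvF⟩)
  choose g hg1 hg2 hg3 using hcut
  obtain ⟨φ, hφ⟩ := Finset.rado_selection g
  have hφI : ∀ v, v ∉ F → φ v = φ0 v := by
    intro v hv
    obtain ⟨t, ht, ht2⟩ := hφ {v}
    rw [ht2 v (Finset.mem_singleton_self v)]
    exact hg1 t v hv
  have hφF : ∀ v, v ∈ F → φ v ≠ 0 := by
    intro v hv
    obtain ⟨t, ht, ht2⟩ := hφ {v}
    rw [ht2 v (Finset.mem_singleton_self v)]
    exact hg2 t v (ht (Finset.mem_singleton_self v)) hv
  refine ⟨φ, ?_⟩
  intro v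
  by_cases hvF : v ∈ F
  · -- finite degree
    obtain ⟨t, ht, ht2⟩ := hφ (insert v (N v))
    have hvt : v ∈ t := ht (Finset.mem_insert_self _ _)
    have h3 := hg3 t v hvt hvF
    have hv2 : φ v = g t v := ht2 v (Finset.mem_insert_self _ _)
    have hu2 : ∀ u ∈ N v, φ u = g t u := fun u hu => ht2 u (Finset.mem_insert_of_mem hu)
    have e1 : sameWeight G w φ v =
        ((∑ u ∈ N v, if φ u = φ v then w s(v, u) else 0 : ℕ) : ℝ≥0∞) :=
      tsum_eq_fin G w v (fun u => φ u = φ v) (N v) (hN v hvF)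
    have e2 : diffWeight G w φ v =
        ((∑ u ∈ N v, if φ u ≠ φ v then w s(v, u) else 0 : ℕ) : ℝ≥0∞) :=
      tsum_eq_fin G w v (fun u => φ u ≠ φ v) (N v) (hN v hvF)
    rw [e1, e2, Nat.cast_le]
    calc (∑ u ∈ N v, if φ u = φ v then w s(v, u) else 0)
        = ∑ u ∈ N v, if g t u = g t v then w s(v, u) else 0 := by
          refine Finset.sum_congr rfl ?_
          intro u hu
          rw [hv2, hu2 u hu]
      _ ≤ ∑ u ∈ N v, if g t u ≠ g t v then w s(v, u) else 0 := h3
      _ = ∑ u ∈ N v, if φ u ≠ φ v then w s(v, u) else 0 := by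
          refine Finset.sum_congr rfl ?_
          intro u hu
          rw [hv2, hu2 u hu]
  · -- infinite degree
    apply ok_of_infinite
    have hfa : ∀ u d, u ∉ F → f u = some d → φ u = d := by
      intro u d hu hd
      rw [hφI u hu]
      simp [φ0, hd]
    by_cases hvK : v ∈ K
    · have hv0 : φ v = 0 := hfa v 0 hvF (hfK v hvK)
      refine hvK.2.mono ?_
      rintro u ⟨hu1, hu2⟩
      refine ⟨hu1, ?_⟩
      show φ u ≠ φ v
      rw [hv0]
      exact hφF u hu2
    · by_cases hvn : f v = none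
      · have hvS : v ∈ S := ⟨hvF, hvn⟩
        refine (hs ⟨v, hvS⟩ (!(s v))).mono ?_
        rintro u ⟨⟨hu1, hu2⟩, hu3⟩
        refine ⟨hu1, ?_⟩
        show φ u ≠ φ v
        rw [hφI u hu2.1, hφI v hvF]
        have hu3' : s u = !(s v) := hu3
        simp only [φ0, hu2.2, hvn, Option.getD_none, hu3']
        cases s v <;> simp
      · obtain ⟨c, hc⟩ := Option.ne_none_iff_exists'.mp hvn
        refine (hfC v c hvK hc).mono ?_
        rintro u ⟨hu1, d, hd, hdc⟩
        refine ⟨hu1, ?_⟩
        show φ u ≠ φ v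
        have huF : u ∉ F := by
          by_cases huK : u ∈ K
          · exact huK.1
          · exact hfI u huK (by rw [hd]; simp)
        rw [hfa u d huF hd, hfa v c hvF hc]
        exact hdc

end Pool.Agent.Results.MP_e8eed4_co.MajorityThree
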